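import Pool.Agent.H479R3.RC10

/-!
# The Helly space does not embed in the space of scatteredly continuous functions on Baire space
-/

set_option autoImplicit false

namespace Pool.Agent.Results.MP_36375e_gt.NoHelly

open Set Pool.Agent.H479R3.RC

/-- The Helly space: the set of all non-decreasing functions from `[0,1]` to `[0,1]`, a subset of
the product `[0,1]^[0,1]` and topologised as such (pointwise convergence). -/
def Helly : Set (Icc (0 : ℝ) 1 → Icc (0 : ℝ) 1) := {f | Monotone f}

/-- A real function `f` on a topological space `X` is scatteredly continuous if the restriction of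
`f` to every nonempty subset `A` of `X` has a point of continuity. -/
def ScatteredlyContinuous {X : Type} [TopologicalSpace X] (f : X → ℝ) : Prop :=
  ∀ A : Set X, A.Nonempty → ∃ a : A, ContinuousAt (fun x : A => f x) a

/-- `SC_p(ω^ω)`, as a subset of `ℝ^(ω^ω)` with the product topology. -/
def SCp : Set ((ℕ → ℕ) → ℝ) := {g | ScatteredlyContinuous g}

lemma sc_of {f : (ℕ → ℕ) → ℝ} (h : ScatteredlyContinuous f) : SC f := by
  intro A hA
  obtain ⟨a, ha⟩ := h A hA
  exact ⟨a, a.2, (continuousWithinAt_iff_continuousAt_domRestrict f a.2).2 ha⟩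

/-- The restriction of a monotone function on the line to the unit interval. -/
def restr (g : Mon) : Helly :=
  ⟨fun t => ⟨(g : ℝ → ℝ) t, (g.2.2 t).1, (g.2.2 t).2⟩, fun _ _ h => g.2.1 h⟩

lemma continuous_restr : Continuous restr := by
  apply Continuous.subtype_mk
  apply continuous_pi
  intro t
  apply Continuous.subtype_mk
  exact (continuous_apply (t : ℝ)).comp continuous_subtype_val

/-- A continuous injection of Baire space into the open unit interval. -/
lemma exists_p : ∃ p : (ℕ → ℕ) → ℝ, Continuous p ∧ Function.Injective p ∧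
    ∀ y, 0 ≤ p y ∧ p y ≤ 1 := by
  obtain ⟨p, hp, hpi⟩ := exists_pi
  refine ⟨fun y => Real.arctan (p y) / Real.pi + 1 / 2, ?_, ?_, ?_⟩
  · exact ((Real.continuous_arctan.comp hp).div_const _).add_const _
  · intro a b hab
    have h1 : Real.arctan (p a) / Real.pi = Real.arctan (p b) / Real.pi := by
      simpa using hab
    have h2 : Real.arctan (p a) = Real.arctan (p b) := by
      have := Real.pi_pos.ne'
      field_simp at h1
      exact h1
    exact hpi (Real.arctan_injective h2)
  · intro y
    have hpos := Real.pi_pos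
    have h1 := Real.neg_pi_div_two_lt_arctan (p y)
    have h2 := Real.arctan_lt_pi_div_two (p y)
    have h3 : -(1 / 2) ≤ Real.arctan (p y) / Real.pi := by
      rw [le_div_iff₀ hpos]; linarith
    have h4 : Real.arctan (p y) / Real.pi ≤ 1 / 2 := by
      rw [div_le_iff₀ hpos]; linarith
    constructor <;> linarith

/-- There is no continuous injective map of the Helly space into `SC_p(ω^ω)`. -/
theorem noInj (F : Helly → (ℕ → ℕ) → ℝ) (hF : Continuous F) (hinj : Function.Injective F)
    (hSC : ∀ h, ScatteredlyContinuous (F h)) : False := by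
  classical
  obtain ⟨p, hpc, hpi, hp01⟩ := exists_p
  let E : (ℕ → ℕ) → (ℝ → ℝ) → ℝ := fun y g =>
    if h : g ∈ Mon then F (restr ⟨g, h⟩) y else 0
  have hEval : ∀ g (hg : g ∈ Mon) y, E y g = F (restr ⟨g, hg⟩) y := by
    intro g hg y
    simp only [E, dif_pos hg]
  refine main_contra (E := E) ?_ ?_ hpc hpi ?_
  · intro y
    rw [continuousOn_iff_continuous_domRestrict]
    have h1 : Set.domRestrict Mon (E y) = fun g : Mon => F (restr g) y := by
      funext g
      exact hEval g g.2 y
    rw [h1]
    exact (continuous_apply y).comp (hF.comp continuous_restr)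
  · intro g hg
    have h1 : (fun y => E y g) = F (restr ⟨g, hg⟩) := by
      funext y
      exact hEval g hg y
    rw [h1]
    exact sc_of (hSC _)
  · intro y
    by_contra hno
    push Not at hno
    have m0 : st1 (p y) 1 0 ∈ Mon := st1_mem le_rfl zero_le_one
    have m1 : st1 (p y) 1 1 ∈ Mon := st1_mem zero_le_one le_rfl
    have h1 : F (restr ⟨_, m0⟩) = F (restr ⟨_, m1⟩) := by
      funext a
      rw [← hEval _ m0 a, ← hEval _ m1 a]
      exact hno a
    have h2 := congrArg Subtype.val (hinj h1)
    have h3 := congrArg Subtype.val (congrFun h2 ⟨p y, hp01 y⟩)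
    simp [restr, st1] at h3

/-- No compact subset of `SC_p(ω^ω)` is homeomorphic to the Helly space; more generally there is no
continuous injective map of the Helly space into `SC_p(ω^ω)`. -/
theorem result :
    (¬ ∃ T : Set ((ℕ → ℕ) → ℝ), T ⊆ SCp ∧ IsCompact T ∧ Nonempty (Helly ≃ₜ T)) ∧
    (¬ ∃ F : Helly → SCp, Continuous F ∧ Function.Injective F) := by
  constructor
  · rintro ⟨T, hT, -, ⟨φ⟩⟩
    refine noInj (fun h => (φ h : (ℕ → ℕ) → ℝ)) (continuous_subtype_val.comp φ.continuous) ?_
      (fun h => hT (φ h).2)
    intro a b hab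
    exact φ.injective (Subtype.ext hab)
  · rintro ⟨F, hF, hinj⟩
    refine noInj (fun h => (F h : (ℕ → ℕ) → ℝ)) (continuous_subtype_val.comp hF) ?_
      (fun h => (F h).2)
    intro a b hab
    exact hinj (Subtype.ext hab)

end Pool.Agent.Results.MP_36375e_gt.NoHelly
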